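import Pool.Agent.Q188.HM.Basic

/-!
# Interval maps Hölder for every exponent have metric mean dimension zero (MP_d02d3c_an, Q1)
-/

set_option autoImplicit false

open Pool.Agent.Q188.HM

namespace Pool.Agent.Results.MP_d02d3c_an.HolderEveryExponent

/-- A map of `[0,1]` which is `α`-Hölder for every `α ∈ (0,1)` has (upper) metric mean dimension
zero. -/
theorem result (φ : I → I) (h : ∀ α ∈ Set.Ioo (0 : ℝ) 1, IsHolder φ α) :
    upperMdim φ = 0 := by
  apply le_antisymm
  · apply le_of_forall_gt
    intro c hc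
    rcases lt_or_ge c 1 with hc1 | hc1
    · have hc2 : c ≠ ⊤ := (hc1.trans_le le_top).ne
      have hc3 : c ≠ ⊥ := (EReal.bot_lt_zero.trans hc).ne'
      lift c to ℝ using ⟨hc2, hc3⟩
      have hc4 : 0 < c := by exact_mod_cast hc
      have hc5 : c < 1 := by exact_mod_cast hc1
      have h1 := upperMdim_le (φ := φ) (α := 1 - c / 2) (by linarith) (by linarith)
        (h (1 - c / 2) ⟨by linarith, by linarith⟩)
      refine h1.trans_lt ?_
      rw [EReal.coe_lt_coe_iff]
      linarith
    · have h1 := upperMdim_le (φ := φ) (α := 1 / 2) (by norm_num) (by norm_num)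
        (h (1 / 2) ⟨by norm_num, by norm_num⟩)
      have h2 : ((1 - 1 / 2 : ℝ) : EReal) < 1 := by
        have : (1 - 1 / 2 : ℝ) < 1 := by norm_num
        exact_mod_cast this
      exact (h1.trans_lt h2).trans_le hc1
  · exact (lowerMdim_nonneg φ).trans (lowerMdim_le_upperMdim φ)

end Pool.Agent.Results.MP_d02d3c_an.HolderEveryExponent
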